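import Mathlib

/-!
# Minimum degree at least `k` is `∞`-elusive for every `k ≥ 2`

In the `ω`-turn Seeker-Hider game on the pairs of natural numbers, Hider has a winning strategy for
the property every vertex has degree at least `k`, for every `k ≥ 2`.

Hider fixes a parent function `par` with `par z < z` for `z ≥ 1` all of whose fibres are infinite.
A queried pair `{x, z}`, `x < z`, is coloured green if and only if `x = par z` and the number of
`y` such that `{x, y}` is green, or `y < x` and `{x, y}` is white, is less than `k`.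
-/

namespace Pool.Agent.Results.MP_3b52ff_co.MinDegreeElusive

/-! ### The game -/

/-- The queries of a run of the game are legal: at every turn `n` Seeker chooses a pair `q n` of two
different natural numbers which has not been chosen before. -/
def Legal (q : ℕ → Sym2 ℕ) : Prop :=
  (∀ n, ¬ (q n).IsDiag) ∧ Function.Injective q

/-- The pairs that are green at the end of the run with queries `q` and answers `c`
(`true` means green, `false` means red). -/
def green (q : ℕ → Sym2 ℕ) (c : ℕ → Bool) : Set (Sym2 ℕ) :=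
  {e | ∃ n, q n = e ∧ c n = true}

/-- The pairs that are still white at the end of the run. -/
def white (q : ℕ → Sym2 ℕ) : Set (Sym2 ℕ) :=
  {e | ¬ e.IsDiag ∧ ∀ n, q n ≠ e}

/-- The graphs that contain all green pairs and no red pair. -/
def outcomes (q : ℕ → Sym2 ℕ) (c : ℕ → Bool) : Set (SimpleGraph ℕ) :=
  {H | green q c ⊆ H.edgeSet ∧ H.edgeSet ⊆ green q c ∪ white q}

/-- Seeker wins the run: some pair is white at the end, and the property `S` is decided. -/
def SeekerWins (S : Set (SimpleGraph ℕ)) (q : ℕ → Sym2 ℕ) (c : ℕ → Bool) : Prop :=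
  (white q).Nonempty ∧ (outcomes q c ⊆ S ∨ outcomes q c ∩ S = ∅)

/-- The history of the first `n` turns. -/
def history (q : ℕ → Sym2 ℕ) (c : ℕ → Bool) (n : ℕ) : List (Sym2 ℕ × Bool) :=
  (List.range n).map fun i => (q i, c i)

/-- `σ` is a winning strategy for Seeker: every run in which Seeker follows `σ`, with arbitrary
answers of Hider, has only legal queries and is won by Seeker. -/
def IsSeekerWinningStrategy (S : Set (SimpleGraph ℕ)) (σ : List (Sym2 ℕ × Bool) → Sym2 ℕ) : Prop :=
  ∀ q c, (∀ n, q n = σ (history q c n)) → Legal q ∧ SeekerWins S q c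

/-- `τ` is a winning strategy for Hider: every run with legal queries in which Hider follows `τ`
is won by Hider. -/
def IsHiderWinningStrategy (S : Set (SimpleGraph ℕ))
    (τ : List (Sym2 ℕ × Bool) → Sym2 ℕ → Bool) : Prop :=
  ∀ q c, Legal q → (∀ n, c n = τ (history q c n) (q n)) → ¬ SeekerWins S q c

/-- The property `S` is `∞`-elusive: Seeker has no winning strategy. -/
def InftyElusive (S : Set (SimpleGraph ℕ)) : Prop :=
  ¬ ∃ σ, IsSeekerWinningStrategy S σ

/-- A graph property is a set of graphs on `ℕ` closed under isomorphism. -/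
def IsGraphProperty (S : Set (SimpleGraph ℕ)) : Prop :=
  ∀ G H : SimpleGraph ℕ, Nonempty (G ≃g H) → G ∈ S → H ∈ S

/-- Every vertex has degree (possibly infinite) at least `k`. -/
def minDegree (k : ℕ) : Set (SimpleGraph ℕ) :=
  {G | ∀ v, (k : ℕ∞) ≤ (G.neighborSet v).encard}

/-! ### Hider's strategy -/

/-- The parent function. -/
def par (z : ℕ) : ℕ := (Nat.unpair (z - 1)).1

theorem par_lt {z : ℕ} (hz : 0 < z) : par z < z := by
  have := Nat.unpair_left_le (z - 1)
  unfold par
  omega

theorem infinite_children (x : ℕ) : {z | 0 < z ∧ par z = x}.Infinite := by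
  refine Set.infinite_of_injective_forall_mem (f := fun j : ℕ => Nat.pair x j + 1) ?_ ?_
  · intro i j h
    have h' : Nat.pair x i = Nat.pair x j := by simpa using h
    exact (Nat.pair_eq_pair.1 h').2
  · intro j
    refine ⟨Nat.succ_pos _, ?_⟩
    simp [par]

/-- The `z` for which `{x, z}` is green, or `z < x` and `{x, z}` is white, after the history `h`. -/
def cand (h : List (Sym2 ℕ × Bool)) (x : ℕ) : Set ℕ :=
  {z | (s(x, z), true) ∈ h ∨ (z < x ∧ ∀ b, (s(x, z), b) ∉ h)}

open Classical in
/-- Hider's strategy. -/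
noncomputable def strat (k : ℕ) (h : List (Sym2 ℕ × Bool)) (e : Sym2 ℕ) : Bool :=
  decide (∃ x z, x < z ∧ e = s(x, z) ∧ par z = x ∧ (cand h x).ncard < k)

theorem mem_history {q : ℕ → Sym2 ℕ} {c : ℕ → Bool} {n : ℕ} {e : Sym2 ℕ} {b : Bool} :
    (e, b) ∈ history q c n ↔ ∃ i < n, q i = e ∧ c i = b := by
  simp only [history, List.mem_map, List.mem_range, Prod.mk.injEq]

section run

variable {k : ℕ} {q : ℕ → Sym2 ℕ} {c : ℕ → Bool}

/-- The candidates of `x` at time `n`. -/
def N (q : ℕ → Sym2 ℕ) (c : ℕ → Bool) (n x : ℕ) : Set ℕ := cand (history q c n) x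

theorem mem_N {n x z : ℕ} : z ∈ N q c n x ↔
    (∃ i < n, q i = s(x, z) ∧ c i = true) ∨ (z < x ∧ ∀ i < n, q i ≠ s(x, z)) := by
  simp only [N, cand, Set.mem_ofPred_eq, mem_history]
  constructor
  · rintro (h | ⟨h1, h2⟩)
    · exact Or.inl h
    · refine Or.inr ⟨h1, fun i hi he => h2 (c i) ⟨i, hi, he, rfl⟩⟩
  · rintro (h | ⟨h1, h2⟩)
    · exact Or.inl h
    · refine Or.inr ⟨h1, ?_⟩
      rintro b ⟨i, hi, he, -⟩
      exact h2 i hi he

theorem right_inj {x y z : ℕ} (h : s(x, y) = s(x, z)) : y = z := by
  exact Sym2.congr_right.1 h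

theorem finite_N (n x : ℕ) : (N q c n x).Finite := by
  have h1 : (Set.Iio x).Finite := Set.finite_Iio x
  have h2 : (⋃ i ∈ Finset.range n, {z | q i = s(x, z)}).Finite := by
    refine Set.Finite.biUnion (Finset.finite_toSet _) fun i _ => ?_
    refine Set.Subsingleton.finite ?_
    intro a ha b hb
    exact right_inj (ha.symm.trans hb)
  refine (h2.union h1).subset ?_
  intro z hz
  rcases mem_N.1 hz with ⟨i, hi, h, -⟩ | ⟨h, -⟩
  · left
    simp only [Finset.mem_range, Set.mem_iUnion, Set.mem_ofPred_eq]
    exact ⟨i, hi, h⟩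
  · right; exact h

theorem answer_true (hc : ∀ n, c n = strat k (history q c n) (q n)) {n : ℕ} (h : c n = true) :
    ∃ x z, x < z ∧ q n = s(x, z) ∧ par z = x ∧ (N q c n x).ncard < k := by
  rw [hc n] at h
  simpa [strat, N] using h

theorem answer_false (hc : ∀ n, c n = strat k (history q c n) (q n)) {n x z : ℕ} (h : c n = false)
    (hxz : x < z) (hq : q n = s(x, z)) (hp : par z = x) : k ≤ (N q c n x).ncard := by
  rw [hc n] at h
  simp only [strat, decide_eq_false_iff_not] at h
  by_contra hlt
  exact h ⟨x, z, hxz, hq, hp, not_le.1 hlt⟩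

/-- The main invariant: either all green pairs at `x` go down, or `x` has at most `k` candidates. -/
theorem invariant (hq : Legal q) (hc : ∀ n, c n = strat k (history q c n) (q n)) (x : ℕ) (n : ℕ) :
    (∀ i < n, ∀ z, q i = s(x, z) → c i = true → z < x) ∨ (N q c n x).ncard ≤ k := by
  induction n with
  | zero => left; intro i hi; omega
  | succ n ih =>
    -- the candidates at time `n + 1` which are not candidates at time `n`
    have hnew : ∀ z, z ∈ N q c (n + 1) x → z ∈ N q c n x ∨ (q n = s(x, z) ∧ c n = true) := by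
      intro z hz
      rcases mem_N.1 hz with ⟨i, hi, h1, h2⟩ | ⟨h1, h2⟩
      · rcases Nat.lt_succ_iff_lt_or_eq.1 hi with hi | rfl
        · exact Or.inl (mem_N.2 (Or.inl ⟨i, hi, h1, h2⟩))
        · exact Or.inr ⟨h1, h2⟩
      · exact Or.inl (mem_N.2 (Or.inr ⟨h1, fun i hi => h2 i (by omega)⟩))
    by_cases hup : ∃ z, x < z ∧ q n = s(x, z) ∧ c n = true
    · -- an upward pair at `x` becomes green
      right
      obtain ⟨z, hxz, hqz, hcn⟩ := hup
      obtain ⟨x', z', hlt, hq', hp, hcard⟩ := answer_true hc hcn
      have hx : x' = x := by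
        have h : s(x, z) = s(x', z') := hqz.symm.trans hq'
        rcases Sym2.eq_iff.1 h with ⟨h1, -⟩ | ⟨h1, h2⟩
        · exact h1.symm
        · omega
      subst hx
      have hsub : N q c (n + 1) x' ⊆ insert z (N q c n x') := by
        intro w hw
        rcases hnew w hw with h | ⟨h, -⟩
        · exact Or.inr h
        · exact Or.inl (right_inj (h.symm.trans hqz))
      calc (N q c (n + 1) x').ncard ≤ (insert z (N q c n x')).ncard :=
            Set.ncard_le_ncard hsub ((finite_N n x').insert z)
        _ ≤ (N q c n x').ncard + 1 := Set.ncard_insert_le _ _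
        _ ≤ k := hcard
    · push Not at hup
      have hsub : N q c (n + 1) x ⊆ N q c n x := by
        intro w hw
        rcases hnew w hw with h | ⟨h1, h2⟩
        · exact h
        · have hwx : w < x := by
            have h3 : w ≤ x := by
              by_contra hlt
              exact hup w (not_le.1 hlt) h1 h2
            have h4 : w ≠ x := by
              rintro rfl
              apply hq.1 n
              rw [h1]
              simp
            omega
          refine mem_N.2 (Or.inr ⟨hwx, fun i hi he => ?_⟩)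
          have := hq.2 (he.trans h1.symm)
          omega
      rcases ih with ih | ih
      · left
        intro i hi z h1 h2
        rcases Nat.lt_succ_iff_lt_or_eq.1 hi with hi | rfl
        · exact ih i hi z h1 h2
        · have h3 : z ≤ x := by
            by_contra hlt
            exact hup z (not_le.1 hlt) h1 h2
          have h4 : z ≠ x := by
            rintro rfl
            apply hq.1 i
            rw [h1]
            simp
          omega
      · right
        exact (Set.ncard_le_ncard hsub (finite_N n x)).trans ih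

/-- A green downward pair is the pair of a vertex and its parent. -/
theorem green_down (hc : ∀ n, c n = strat k (history q c n) (q n)) {n x z : ℕ} (h : c n = true)
    (hq : q n = s(x, z)) (hzx : z < x) : z = par x := by
  obtain ⟨x', z', hlt, hq', hp, -⟩ := answer_true hc h
  have h : s(x, z) = s(x', z') := hq.symm.trans hq'
  rcases Sym2.eq_iff.1 h with ⟨h1, h2⟩ | ⟨h1, h2⟩
  · omega
  · rw [h1, hp, h2]

/-- If some downward pair at `x` stays white forever, then `x` has green degree less than `k`. -/
theorem green_degree_lt (hk : 2 ≤ k) (hq : Legal q)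
    (hc : ∀ n, c n = strat k (history q c n) (q n)) {x y : ℕ} (hyx : y < x)
    (hw : ∀ n, q n ≠ s(x, y)) :
    ¬ (k : ℕ∞) ≤ {z | s(x, z) ∈ green q c}.encard := by
  intro hle
  obtain ⟨t, ht, htk⟩ := Set.exists_subset_encard_eq hle
  have htfin : t.Finite := Set.finite_of_encard_eq_coe htk
  have htn : t.ncard = k := by
    rw [Set.ncard, htk]; rfl
  -- a time by which all pairs `{x, z}`, `z ∈ t`, are green
  have hex : ∃ n, ∀ z ∈ t, ∃ i < n, q i = s(x, z) ∧ c i = true := by
    have h1 : ∀ z ∈ t, ∃ i, q i = s(x, z) ∧ c i = true := fun z hz => ht hz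
    choose! f hf using h1
    obtain ⟨B, hB⟩ := (htfin.image f).bddAbove
    refine ⟨B + 1, fun z hz => ⟨f z, ?_, hf z hz⟩⟩
    have := hB (Set.mem_image_of_mem f hz)
    omega
  obtain ⟨n, hn⟩ := hex
  rcases invariant hq hc x n with h | h
  · have hsub : t ⊆ {par x} := by
      intro z hz
      obtain ⟨i, hi, h1, h2⟩ := hn z hz
      exact green_down hc h2 h1 (h i hi z h1 h2)
    have := Set.ncard_le_ncard hsub
    rw [htn, Set.ncard_singleton] at this
    omega
  · have hsub : insert y t ⊆ N q c n x := by
      intro z hz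
      rcases hz with rfl | hz
      · exact mem_N.2 (Or.inr ⟨hyx, fun i _ => hw i⟩)
      · exact mem_N.2 (Or.inl (hn z hz))
    have hyt : y ∉ t := by
      intro hy
      obtain ⟨i, -, h1, -⟩ := hn y hy
      exact hw i h1
    have := Set.ncard_le_ncard hsub (finite_N n x)
    rw [Set.ncard_insert_of_notMem hyt htfin, htn] at this
    omega

/-- At the end of the run every vertex has at least `k` green or white pairs. -/
theorem nonred_degree (hc : ∀ n, c n = strat k (history q c n) (q n)) (x : ℕ) :
    (k : ℕ∞) ≤ {z | s(x, z) ∈ green q c ∪ white q}.encard := by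
  set T : Set ℕ := {z | s(x, z) ∈ green q c ∪ white q} with hT
  by_contra hlt
  have hTfin : T.Finite := by
    rw [← Set.encard_lt_top_iff]
    exact lt_of_lt_of_le (not_le.1 hlt) le_top
  -- after time `n₀` all candidates are in `T`
  have hex : ∃ n₀, ∀ z < x, (∃ i, q i = s(x, z)) → ∃ i < n₀, q i = s(x, z) := by
    have h1 : ∀ z : ℕ, ∃ m, (∃ i, q i = s(x, z)) → q m = s(x, z) := by
      intro z
      by_cases h : ∃ i, q i = s(x, z)
      · obtain ⟨i, hi⟩ := h
        exact ⟨i, fun _ => hi⟩
      · exact ⟨0, fun h' => absurd h' h⟩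
    choose f hf using h1
    obtain ⟨B, hB⟩ := ((Set.finite_Iio x).image f).bddAbove
    refine ⟨B + 1, fun z hz h => ⟨f z, ?_, hf z h⟩⟩
    have := hB (Set.mem_image_of_mem f hz)
    omega
  obtain ⟨n₀, hn₀⟩ := hex
  have hsub : ∀ n, n₀ ≤ n → N q c n x ⊆ T := by
    intro n hn z hz
    rcases mem_N.1 hz with ⟨i, -, h1, h2⟩ | ⟨h1, h2⟩
    · exact Or.inl ⟨i, h1, h2⟩
    · refine Or.inr ⟨?_, fun i hi => ?_⟩
      · simp only [Sym2.mk_isDiag_iff]
        omega
      · obtain ⟨j, hj, he⟩ := hn₀ z h1 ⟨i, hi⟩
        exact h2 j (by omega) he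
  -- the red children of `x`
  have hinf : ({z | 0 < z ∧ par z = x} \ T).Infinite := (infinite_children x).sdiff hTfin
  have hred : ∀ z ∈ ({z | 0 < z ∧ par z = x} \ T), ∃ i, q i = s(x, z) ∧ c i = false := by
    rintro z ⟨⟨hz0, hz⟩, hzT⟩
    have hxz : x < z := hz ▸ par_lt hz0
    by_contra hno
    push Not at hno
    apply hzT
    by_cases h : ∃ i, q i = s(x, z)
    · obtain ⟨i, hi⟩ := h
      left
      refine ⟨i, hi, ?_⟩
      have := hno i hi
      simpa using this
    · right
      push Not at h
      refine ⟨?_, h⟩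
      simp only [Sym2.mk_isDiag_iff]
      omega
  choose! f hf using hred
  have hlate : ∃ z ∈ ({z | 0 < z ∧ par z = x} \ T), n₀ ≤ f z := by
    by_contra hno
    push Not at hno
    refine hinf ?_
    refine Set.Finite.of_finite_image (f := f) ((Set.finite_Iio n₀).subset ?_) ?_
    · rintro _ ⟨z, hz, rfl⟩
      exact hno z hz
    · intro a ha b hb hab
      have h1 := (hf a ha).1
      have h2 := (hf b hb).1
      rw [hab] at h1
      exact right_inj (h1.symm.trans h2)
  obtain ⟨z, hz, hzn⟩ := hlate
  have hxz : x < z := hz.1.2 ▸ par_lt hz.1.1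
  have h1 := answer_false hc (hf z hz).2 hxz (hf z hz).1 hz.1.2
  have h2 := Set.ncard_le_ncard (hsub (f z) hzn) hTfin
  apply hlt
  rw [← hTfin.cast_ncard_eq]
  exact_mod_cast h1.trans h2

end run

theorem strat_wins {k : ℕ} (hk : 2 ≤ k) : IsHiderWinningStrategy (minDegree k) (strat k) := by
  rintro q c hq hc ⟨⟨e, hdiag, he⟩, hS⟩
  -- the graph of green pairs
  let G₀ : SimpleGraph ℕ := SimpleGraph.fromEdgeSet (green q c)
  let G₁ : SimpleGraph ℕ := SimpleGraph.fromEdgeSet (green q c ∪ white q)
  have hg : ∀ e ∈ green q c, ¬ e.IsDiag := by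
    rintro _ ⟨n, rfl, -⟩
    exact hq.1 n
  have hgw : ∀ e ∈ green q c ∪ white q, ¬ e.IsDiag := by
    rintro e (h | h)
    · exact hg e h
    · exact h.1
  have hG₀ : G₀.edgeSet = green q c := by
    rw [SimpleGraph.edgeSet_fromEdgeSet]
    ext e
    constructor
    · exact fun h => h.1
    · exact fun h => ⟨h, hg e h⟩
  have hG₁ : G₁.edgeSet = green q c ∪ white q := by
    rw [SimpleGraph.edgeSet_fromEdgeSet]
    ext e
    constructor
    · exact fun h => h.1
    · exact fun h => ⟨h, hgw e h⟩
  have hout₀ : G₀ ∈ outcomes q c := ⟨hG₀.ge, hG₀.le.trans Set.subset_union_left⟩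
  have hout₁ : G₁ ∈ outcomes q c := ⟨Set.subset_union_left.trans hG₁.ge, hG₁.le⟩
  have hN₀ : ∀ v, G₀.neighborSet v = {z | s(v, z) ∈ green q c} := by
    intro v
    ext z
    rw [SimpleGraph.mem_neighborSet, ← SimpleGraph.mem_edgeSet, hG₀]
    rfl
  have hN₁ : ∀ v, G₁.neighborSet v = {z | s(v, z) ∈ green q c ∪ white q} := by
    intro v
    ext z
    rw [SimpleGraph.mem_neighborSet, ← SimpleGraph.mem_edgeSet, hG₁]
    rfl
  have hnot₀ : G₀ ∉ minDegree k := by
    intro hmem
    -- the white pair
    have hxy : ∃ x y, y < x ∧ e = s(x, y) := by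
      induction e with
      | _ a b =>
        have hab : a ≠ b := by simpa using hdiag
        rcases lt_or_gt_of_ne hab with h | h
        · exact ⟨b, a, h, Sym2.eq_swap⟩
        · exact ⟨a, b, h, rfl⟩
    obtain ⟨x, y, hyx, rfl⟩ := hxy
    have := hmem x
    rw [hN₀] at this
    exact green_degree_lt hk hq hc hyx he this
  have hmem₁ : G₁ ∈ minDegree k := by
    intro v
    rw [hN₁]
    exact nonred_degree hc v
  rcases hS with h | h
  · exact hnot₀ (h hout₀)
  · have : G₁ ∈ outcomes q c ∩ minDegree k := ⟨hout₁, hmem₁⟩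
    rw [h] at this
    exact this

/-! ### A winning strategy for Hider excludes one for Seeker -/

/-- The history produced by the two strategies. -/
def play (σ : List (Sym2 ℕ × Bool) → Sym2 ℕ) (τ : List (Sym2 ℕ × Bool) → Sym2 ℕ → Bool) :
    ℕ → List (Sym2 ℕ × Bool)
  | 0 => []
  | n + 1 => play σ τ n ++ [(σ (play σ τ n), τ (play σ τ n) (σ (play σ τ n)))]

theorem history_play (σ : List (Sym2 ℕ × Bool) → Sym2 ℕ)
    (τ : List (Sym2 ℕ × Bool) → Sym2 ℕ → Bool) (n : ℕ) :
    history (fun n => σ (play σ τ n)) (fun n => τ (play σ τ n) (σ (play σ τ n))) n =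
      play σ τ n := by
  induction n with
  | zero => rfl
  | succ n ih =>
    rw [history, List.range_succ, List.map_append, ← history, ih]
    rfl

theorem elusive_of_hider {S : Set (SimpleGraph ℕ)} {τ : List (Sym2 ℕ × Bool) → Sym2 ℕ → Bool}
    (hτ : IsHiderWinningStrategy S τ) : InftyElusive S := by
  rintro ⟨σ, hσ⟩
  obtain ⟨h1, h2⟩ := hσ (fun n => σ (play σ τ n)) (fun n => τ (play σ τ n) (σ (play σ τ n)))
    (fun n => by rw [history_play])
  exact hτ _ _ h1 (fun n => by rw [history_play]) h2

theorem isGraphProperty_minDegree (k : ℕ) : IsGraphProperty (minDegree k) := by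
  rintro G H ⟨φ⟩ hG v
  have h := hG (φ.symm v)
  have h2 : (H.neighborSet v) = φ '' (G.neighborSet (φ.symm v)) := by
    ext w
    simp only [SimpleGraph.mem_neighborSet, Set.mem_image]
    constructor
    · intro hw
      refine ⟨φ.symm w, ?_, by simp⟩
      exact φ.symm.map_adj_iff.2 hw
    · rintro ⟨u, hu, rfl⟩
      have := φ.map_adj_iff.2 hu
      simpa using this
  rw [h2, φ.injective.encard_image]
  exact h

/-- **For every `k ≥ 2` the property every vertex has degree at least `k` is `∞`-elusive**; Hider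
even has a winning strategy in the game of length `ω`. -/
theorem result : ∀ k : ℕ, 2 ≤ k →
    IsGraphProperty (minDegree k) ∧ (∃ τ, IsHiderWinningStrategy (minDegree k) τ) ∧
      InftyElusive (minDegree k) :=
  fun k hk => ⟨isGraphProperty_minDegree k, ⟨strat k, strat_wins hk⟩,
    elusive_of_hider (strat_wins hk)⟩

end Pool.Agent.Results.MP_3b52ff_co.MinDegreeElusive
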